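import Pool.Agent.Lib.MP_3beb55_lc.CF.Main

/-!
Incompactness for the chromatic number. Let `θ = #C` be infinite with `θ < θ ^ ℵ₀` and let `μ` be
the limit of `θ, 2 ^ θ, 2 ^ 2 ^ θ, ...`. Then some graph with more than `μ` and at most `2 ^ μ`
vertices has chromatic number `θ⁺`, while all induced subgraphs with fewer vertices have
chromatic number at most `θ`.
-/

namespace Pool.Agent.Results.MP_3beb55_lc.ManyColours
open Cardinal Ordinal

theorem result (C : Type) [Infinite C] (h : Cardinal.mk C < Cardinal.mk C ^ Cardinal.aleph0)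
    (μ : Cardinal.{0}) (hμ : μ = ⨆ n : ℕ, (fun c : Cardinal.{0} => 2 ^ c)^[n] (Cardinal.mk C)) :
    ∃ (V : Type) (G : SimpleGraph V), μ < Cardinal.mk V ∧ Cardinal.mk V ≤ 2 ^ μ ∧
      IsEmpty (G.Coloring C) ∧
      (∃ D : Type, Cardinal.mk D = Order.succ (Cardinal.mk C) ∧ Nonempty (G.Coloring D)) ∧
      ∀ s : Set V, Cardinal.mk s < Cardinal.mk V → Nonempty ((G.induce s).Coloring C) :=
  hμ ▸ Pool.Agent.Lib.MP_3beb55_lc.CF.main h

open Pool.Agent.Lib.MP_3beb55_lc in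
/-- The question as posed: countably many colours, under the generalized continuum hypothesis. -/
theorem posed (GCH : ∀ κ : Cardinal.{0}, Cardinal.aleph0 ≤ κ → 2 ^ κ = Order.succ κ) :
    ∃ (V : Type) (G : SimpleGraph V),
      Cardinal.mk V = Cardinal.aleph (Ordinal.omega0 + 1) ∧
      IsEmpty (G.Coloring ℕ) ∧
      (∃ C : Type, Cardinal.mk C = Cardinal.aleph 1 ∧ Nonempty (G.Coloring C)) ∧
      ∀ s : Set V, Cardinal.mk s ≤ Cardinal.aleph Ordinal.omega0 →
        Nonempty ((G.induce s).Coloring ℕ) := by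
  have e : ℵ_ ω = ⨆ n : ℕ, (fun c : Cardinal.{0} => 2 ^ c)^[n] #ℕ := by
    have e : ∀ n : ℕ, (fun c : Cardinal.{0} => 2 ^ c)^[n] #ℕ = ℵ_ n := fun n =>
      Cardinal.mk_nat ▸ (bt_eq n).trans (beth_eq_aleph GCH n)
    simp only [e]
    refine le_antisymm ?_ (ciSup_le fun n => Cardinal.aleph_le_aleph.2 (natCast_lt_omega0 n).le)
    rw [Cardinal.aleph_limit isSuccLimit_omega0]
    refine ciSup_le' ?_
    rintro ⟨a, ha⟩
    obtain ⟨n, rfl⟩ := lt_omega0.1 ha
    exact le_ciSup (f := fun n : ℕ => ℵ_ n) Cardinal.bddAbove_of_small n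
  obtain ⟨V, G, h1, h2, h3, h4, h5⟩ :=
    result ℕ (by simpa using Cardinal.aleph0_lt_continuum) _ e
  rw [GCH _ (Cardinal.aleph0_le_aleph _)] at h2
  refine ⟨V, G, ?_, h3, by simpa using h4, fun s hs => h5 s (hs.trans_lt h1)⟩
  rw [← Cardinal.succ_aleph]
  exact le_antisymm h2 (Order.succ_le_of_lt h1)

end Pool.Agent.Results.MP_3beb55_lc.ManyColours
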